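import Pool.Agent.Helper97_WHT.Stmt

/-!
# Squad WHT, row CHX: the explicit characters of `U`
-/

set_option autoImplicit false

open scoped BigOperators

namespace Pool.Agent.WHT.H29

open Pool.Agent.DEN Pool.Agent.TMP

section
variable {r : ℕ} {C : Matrix (Fin r) (Fin r) ℤ} {K : Type} [Field K]

theorem polyL_ne0 {N : Polynomial K} (hN : N ≠ 0) : polyL K N ≠ 0 := by
  intro h
  exact hN ((H99.fld2 K).1 (by rw [h, map_zero]))

/-- the inverse of a polynomial -/
theorem inv_poly {N : Polynomial K} (hN : N ≠ 0) : (polyL K N)⁻¹ ∈ Bd K (-(N.natDegree : ℤ)) := by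
  obtain ⟨-, hadd, hneg, hmul, hmono, -, htt, hiff, hdec⟩ := H99.fld1 K
  obtain ⟨m, u, h1, h2, h3, h4, h5⟩ := hdec (polyL K N) (polyL_ne0 hN)
  have h6 : (N.natDegree : ℤ) ≤ m := (H99.fld2 K).2.2.1 N m hN (by rw [h1]; exact (hiff m u).2 h2)
  have h7 : (polyL K N)⁻¹ ∈ Bd K (-m) := by
    rw [h1, mul_inv, ← zpow_neg]
    exact (hiff (-m) _).2 h3
  exact hmono _ _ _ (by omega) h7

/-- the coefficient of a term -/
theorem term_bd {N : Polynomial K} (hN : N ≠ 0) (c : Polynomial K) {a : FF K} {b : ℤ}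
    (h : b + c.natDegree + 2 ≤ N.natDegree) (ha : a ∈ Bd K b) :
    HahnSeries.coeff (polyL K c * a / polyL K N) 1 = 0 := by
  have h1 := H99.bd_mul (H99.bd_mul ((H99.fld2 K).2.1 c) ha) (inv_poly hN)
  rw [div_eq_mul_inv]
  exact h1 1 (by omega)

theorem coeff_sum' {ι : Type} (s : Finset ι) (f : ι → FF K) (j : ℤ) :
    HahnSeries.coeff (∑ i ∈ s, f i) j = ∑ i ∈ s, HahnSeries.coeff (f i) j := by
  classical
  induction s using Finset.induction_on with
  | empty => simp
  | insert a s ha ih => rw [Finset.sum_insert ha, Finset.sum_insert ha, HahnSeries.coeff_add, ih]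

/-- a simple root element is in `U` -/
theorem sr_pos (hC : SimplyLaced C) (i : Fin r) : (hC.sr i).Pos := by
  intro j
  rw [SimplyLaced.sr_val]
  unfold al
  by_cases h : j = i
  · subst h
    rw [Pi.single_eq_same]
    exact zero_le_one
  · rw [Pi.single_eq_of_ne h]

theorem sr_inj (hC : SimplyLaced C) {i j : Fin r} (h : hC.sr i = hC.sr j) : i = j := by
  have h1 : (hC.sr i).1 = (hC.sr j).1 := congrArg Subtype.val h
  rw [SimplyLaced.sr_val, SimplyLaced.sr_val] at h1
  unfold al at h1
  by_contra hne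
  have h2 := congrFun h1 i
  rw [Pi.single_eq_same, Pi.single_eq_of_ne hne] at h2
  exact one_ne_zero h2

/-- the simple coordinates of an element of `U ∩ Γ(N)` -/
theorem sc_cong (hC : SimplyLaced C) {N : Polynomial K} {u : grp C K} (hu : u ∈ cong C K 1 N)
    (i : Fin r) : ∃ p : Polynomial K, sc hC i u = polyL K N * polyL K p := by
  have hcd : Cd (ringA K 1) (EE (K := K) (hC.sr i).neg) := by
    constructor
    · intro k
      change (0 : FF K) ∈ ringA K 1
      exact zero_mem _
    · intro γ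
      by_cases h : γ = (hC.sr i).neg
      · have : (EE (K := K) (hC.sr i).neg).2 γ = 1 := by
          unfold EE
          exact if_pos h
        rw [this]
        exact one_mem _
      · have : (EE (K := K) (hC.sr i).neg).2 γ = 0 := by
          unfold EE
          exact if_neg h
        rw [this]
        exact zero_mem _
  obtain ⟨b, hb, hb'⟩ := (hu.2.1 _ hcd).1 i
  have h1 : (u.1 (EE (hC.sr i).neg) - EE (hC.sr i).neg).1 i = (u.1 (EE (hC.sr i).neg)).1 i := by
    rw [Prod.fst_sub, Pi.sub_apply]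
    change (u.1 (EE (hC.sr i).neg)).1 i - 0 = _
    rw [sub_zero]
  rw [h1] at hb'
  have hb2 : b ∈ (ringA K 1 : Set (FF K)) := hb
  rw [H99.ringA_one] at hb2
  obtain ⟨p, rfl⟩ := hb2
  refine ⟨-p, ?_⟩
  unfold sc
  rw [hb', map_neg, mul_neg]

end

/-- CHX -/
theorem chx (H : GenxStmt) : ChxStmt := by
  intro r C hC K _ _ e N hN c
  obtain ⟨g1, g2, -, g4⟩ := H r C hC K
  have hN' := polyL_ne0 hN
  have hxi : ∀ (i : Fin r) (a : FF K), chi hC e N c (xi hC i a) =
      e (HahnSeries.coeff (polyL K (c i) * a / polyL K N) 1) := by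
    intro i a
    unfold chi
    rw [Finset.sum_eq_single i]
    · unfold xi
      rw [g2 (hC.sr i) a (sr_pos hC i) i, if_pos rfl]
    · intro j _ hj
      unfold xi
      rw [g2 (hC.sr i) a (sr_pos hC i) j, if_neg (fun h => hj (sr_inj hC h).symm), mul_zero,
        zero_div]
    · intro h
      exact absurd (Finset.mem_univ _) h
  refine ⟨⟨?_, ?_, ?_⟩, hxi, ?_, ?_⟩
  · intro u hu v hv
    unfold chi
    rw [← AddChar.map_add_eq_mul, ← HahnSeries.coeff_add, ← Finset.sum_add_distrib]
    congr 2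
    refine Finset.sum_congr rfl fun i _ => ?_
    rw [g1 u hu v hv i]
    ring
  · intro u _
    exact AddChar.norm_apply e _
  · intro u hu
    unfold chi
    have h0 : HahnSeries.coeff (∑ i, polyL K (c i) * sc hC i u / polyL K N) 1 = 0 := by
      rw [coeff_sum']
      refine Finset.sum_eq_zero fun i _ => ?_
      obtain ⟨p, hp⟩ := sc_cong hC hu.2 i
      have h1 : polyL K (c i) * sc hC i u / polyL K N = polyL K (c i * p) := by
        rw [hp, map_mul]
        field_simp
      rw [h1, H99.polyL_coeff, if_neg (by omega)]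
    rw [h0, AddChar.map_zero_eq_one]
  · intro i a b hb ha
    rw [hxi, term_bd hN (c i) hb ha, AddChar.map_zero_eq_one]
  · intro m hm hi
    refine ⟨hm, fun u hu hum => ?_⟩
    unfold chi
    have h0 : HahnSeries.coeff (∑ i, polyL K (c i) * sc hC i u / polyL K N) 1 = 0 := by
      rw [coeff_sum']
      exact Finset.sum_eq_zero fun i _ => term_bd hN (c i) (hi i) (g4 u hu m hum i)
    rw [h0, AddChar.map_zero_eq_one]

end Pool.Agent.WHT.H29
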